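import Pool.Agent.H39.HW.SBas

/-!
# Project HW, scheme side: part LM1
-/

set_option autoImplicit false
open Classical Finset

namespace Pool.Agent.H24.HW

open Pool.Agent.H39.HW Pool.Agent.H39.HW.Sc

theorem core_c {ε c : ℝ} (e0 : 0 < ε) (e1 : ε ≤ 1 / 10) (c1 : ε ≤ c) (c2 : c ≤ 1 / 2 - ε) :
    4 / 5 * ε ≤ c - 2 * c ^ 2 := by
  nlinarith [mul_nonneg (sub_nonneg.mpr c1) (sub_nonneg.mpr c2)]

theorem core_X {l dj X η : ℝ} (l0 : 0 ≤ l) (l1 : l ≤ 1) (hη : 0 < η)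
    (h1 : X ≤ dj + 5 * η) : l * X ≤ l * dj + 5 * η := by
  nlinarith [mul_le_mul_of_nonneg_left h1 l0]

theorem core_l {l dj : ℝ} (hd : 0 < dj) (h0 : 0 ≤ l * dj) (h1 : l * dj ≤ dj) :
    0 ≤ l ∧ l ≤ 1 := by
  constructor
  · by_contra h
    push Not at h
    nlinarith
  · by_contra h
    push Not at h
    nlinarith

theorem core_R {ε c η l dj dn X r : ℝ} (e0 : 0 < ε) (e1 : ε ≤ 1 / 10) (hη : 0 < η)
    (hn : 10 ^ 4 * η ≤ ε) (c1 : ε ≤ c) (c2 : c ≤ 1 / 2 - ε)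
    (hdj1 : 3 / 5 * c - 4 * η ≤ dj) (hdj2 : dj ≤ 3 / 5 * c + η)
    (hdn0 : 0 ≤ dn) (hdn1 : dn ≤ 3 / 5 * c + η)
    (hX1 : 3 / 5 * c - η ≤ X) (hX2 : X ≤ 3 / 5 * c + η)
    (hr0 : 0 ≤ r) (hr1 : r ≤ c + 2 * η) (hs : dn = 0 ∨ r ≤ η)
    (h : |l * dj + dn / 2 - (c / 2 + c ^ 2 / 5 - 2 / 5 * r)| ≤ 20 * η) :
    0 ≤ l ∧ l ≤ 1 ∧ l * X ≤ c / 2 + c ^ 2 / 5 - 2 / 5 * r + 50 * η ∧
      (1 - l) * X ≤ c / 10 - c ^ 2 / 5 + 2 / 5 * r + dn / 2 + 30 * η := by
  obtain ⟨h1, h2⟩ := abs_le.mp h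
  have hc := core_c e0 e1 c1 c2
  have hc2 : 0 ≤ c ^ 2 := sq_nonneg c
  have hd : 0 < dj := by linarith
  have l0 : 0 ≤ l * dj := by
    rcases hs with hs | hs
    · rw [hs] at h1
      linarith
    · linarith
  have l1 : l * dj ≤ dj := by linarith
  obtain ⟨l0', l1'⟩ := core_l hd l0 l1
  refine ⟨l0', l1', ?_, ?_⟩
  · have := core_X l0' l1' hη (by linarith : X ≤ dj + 5 * η)
    linarith
  · have := core_X (l := 1 - l) (by linarith) (by linarith) hη (by linarith : X ≤ dj + 5 * η)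
    have e : (1 - l) * dj = dj - l * dj := by ring
    rw [e] at this
    linarith

theorem core_M {ε c η l dj dn X : ℝ} (e0 : 0 < ε) (hη : 0 < η)
    (hn : 10 ^ 4 * η ≤ ε) (c1 : ε ≤ c)
    (hdj1 : 3 / 5 * c - 4 * η ≤ dj) (hdj2 : dj ≤ 3 / 5 * c + η)
    (hdn0 : 3 / 5 * c - η ≤ dn) (hdn1 : dn ≤ 3 / 5 * c + η)
    (hX1 : 3 / 5 * c - η ≤ X) (hX2 : X ≤ 3 / 5 * c + η)
    (h : |l * dj + dn / 2 - 3 / 5 * c| ≤ 20 * η) :
    0 ≤ l ∧ l ≤ 1 ∧ l * X ≤ 3 / 10 * c + 50 * η ∧ (1 - l) * X ≤ 3 / 10 * c + 50 * η := by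
  obtain ⟨h1, h2⟩ := abs_le.mp h
  have hd : 0 < dj := by linarith
  have l0 : 0 ≤ l * dj := by linarith
  have l1 : l * dj ≤ dj := by linarith
  obtain ⟨l0', l1'⟩ := core_l hd l0 l1
  refine ⟨l0', l1', ?_, ?_⟩
  · have := core_X l0' l1' hη (by linarith : X ≤ dj + 5 * η)
    linarith
  · have := core_X (l := 1 - l) (by linarith) (by linarith) hη (by linarith : X ≤ dj + 5 * η)
    have e : (1 - l) * dj = dj - l * dj := by ring
    rw [e] at this
    linarith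

theorem t_LM1 (h1 : S_DJN) (h2 : S_LMR) (h3 : S_LML) (h4 : S_LMN) : S_LM1 := by
  intro x hx a ha
  obtain ⟨j1, j2, n0, n1, nR, nL, nM⟩ := h1 x hx a ha
  have θ0 := hx.t0
  have hX1 := hx.X_ge
  have hX2 := hx.X_le
  set X : ℝ := ((x.K : ℝ) - x.g) * (x.v / x.D) with hXd
  -- normalised quantities
  have dv : ∀ {y z : ℝ}, y * x.θ ≤ z → y ≤ z / x.θ := fun h => (le_div_iff₀ θ0).mpr h
  have dv' : ∀ {y z : ℝ}, z ≤ y * x.θ → z / x.θ ≤ y := fun h => (div_le_iff₀ θ0).mpr h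
  have j1' := dv j1
  have j2' := dv' j2
  have n0' : 0 ≤ x.DN a / x.θ := div_nonneg n0 θ0.le
  have n1' := dv' n1
  have X1' := dv hX1
  have X2' := dv' hX2
  have hK := (hx.mem_R).mp ha
  have hB := hx.b1_le_B
  have hb := hx.b0_lt_b1
  have hJ := hx.J1
  have hKm := hx.Kmu
  have hJm := hx.Jmu
  have hKg := hx.Kg_le
  have m0 := hx.m0
  have key : ∀ {s t r : ℝ}, |s * x.DJ a + x.DN a / 2 - t * x.θ| ≤ r * x.θ →
      |s * (x.DJ a / x.θ) + (x.DN a / x.θ) / 2 - t| ≤ r := by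
    intro s t r h
    have e : s * (x.DJ a / x.θ) + (x.DN a / x.θ) / 2 - t =
        (s * x.DJ a + x.DN a / 2 - t * x.θ) / x.θ := by
      field_simp
    rw [e, abs_div, abs_of_pos θ0, div_le_iff₀ θ0]
    exact h
  have up : ∀ {s t : ℝ}, s * (X / x.θ) ≤ t → s * X ≤ t * x.θ := by
    intro s t h
    have e : s * X = s * (X / x.θ) * x.θ := by
      field_simp
    rw [e]
    exact mul_le_mul_of_nonneg_right h θ0.le
  by_cases cR : x.b1 ≤ a + x.K
  · -- right rows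
    have hnL : ¬ a < x.b0 + x.K := by omega
    have hnM : ¬ (a + x.K < x.b1) := by omega
    have hl := key (h2 x hx a ha cR)
    set r : ℝ := ((a : ℝ) + x.K - x.b1) * x.μ with hr
    have r0 : 0 ≤ r := by
      apply mul_nonneg _ m0.le
      have : (x.b1 : ℝ) ≤ a + x.K := by exact_mod_cast cR
      linarith
    have r1 : r ≤ x.c + 2 * x.η := by
      have : (a : ℝ) + x.K - x.b1 ≤ x.K + x.J := by
        have : a ≤ x.b1 + x.J := by omega
        have : (a : ℝ) ≤ x.b1 + x.J := by exact_mod_cast this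
        linarith
      have := mul_le_mul_of_nonneg_right this m0.le
      have e : ((x.K : ℝ) + x.J) * x.μ = x.K * x.μ + x.J * x.μ := by ring
      rw [e] at this
      linarith
    have hs : x.DN a / x.θ = 0 ∨ r ≤ x.η := by
      by_cases hc : x.b1 ≤ a + x.g + 1
      · left
        rw [nR hc, zero_div]
      · right
        have : (a : ℝ) + x.K - x.b1 ≤ x.K - x.g := by
          have : a + x.g ≤ x.b1 := by omega
          have : (a : ℝ) + x.g ≤ x.b1 := by exact_mod_cast this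
          linarith
        exact (mul_le_mul_of_nonneg_right this m0.le).trans hKg
    obtain ⟨o1, o2, o3, o4⟩ := core_R hx.e0 hx.e1 hx.n0 hx.n1 hx.c1 hx.c2 j1' j2' n0' n1'
      X1' X2' r0 r1 hs hl
    refine ⟨by linarith, by linarith, fun _ => ⟨up o3, ?_⟩, fun h => absurd h hnL,
      fun _ h => absurd h hnM⟩
    apply up
    have e : 1 - (1 - x.lam a) = x.lam a := by ring
    rw [e] at o4
    split_ifs with hc
    · rw [nR hc, zero_div] at o4
      linarith [hx.n0]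
    · linarith [hx.n0]
  by_cases cL : a < x.b0 + x.K
  · have hnM : ¬ (x.b0 + x.K ≤ a) := by omega
    have hl := key (h3 x hx a ha cL)
    set r : ℝ := ((x.b0 : ℝ) + x.K - a) * x.μ with hr
    have r0 : 0 ≤ r := by
      apply mul_nonneg _ m0.le
      have : (a : ℝ) ≤ x.b0 + x.K := by exact_mod_cast cL.le
      linarith
    have r1 : r ≤ x.c + 2 * x.η := by
      have : (x.b0 : ℝ) + x.K - a ≤ x.K + x.J := by
        have h5 : x.b0 ≤ a + x.J := by
          have : x.b0 = x.K + x.J := rfl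
          omega
        have : (x.b0 : ℝ) ≤ a + x.J := by exact_mod_cast h5
        linarith
      have := mul_le_mul_of_nonneg_right this m0.le
      have e : ((x.K : ℝ) + x.J) * x.μ = x.K * x.μ + x.J * x.μ := by ring
      rw [e] at this
      linarith
    have hs : x.DN a / x.θ = 0 ∨ r ≤ x.η := by
      by_cases hc : a < x.b0 + x.g + 1
      · left
        rw [nL hc, zero_div]
      · right
        have : (x.b0 : ℝ) + x.K - a ≤ x.K - x.g := by
          have : x.b0 + x.g ≤ a := by omega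
          have : (x.b0 : ℝ) + x.g ≤ a := by exact_mod_cast this
          linarith
        exact (mul_le_mul_of_nonneg_right this m0.le).trans hKg
    obtain ⟨o1, o2, o3, o4⟩ := core_R hx.e0 hx.e1 hx.n0 hx.n1 hx.c1 hx.c2 j1' j2' n0' n1'
      X1' X2' r0 r1 hs hl
    refine ⟨o1, o2, fun h => absurd h cR, fun _ => ⟨up o3, ?_⟩, fun h => absurd h hnM⟩
    apply up
    split_ifs with hc
    · rw [nL hc, zero_div] at o4
      linarith [hx.n0]
    · linarith [hx.n0]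
  · push Not at cR cL
    have hl := key (h4 x hx a ha cL cR)
    have n0'' := dv (nM cL cR)
    obtain ⟨o1, o2, o3, o4⟩ := core_M hx.e0 hx.n0 hx.n1 hx.c1 j1' j2' n0'' n1'
      X1' X2' hl
    exact ⟨o1, o2, fun h => absurd h (by omega), fun h => absurd h (by omega),
      fun _ _ => ⟨up o3, up o4⟩⟩

end Pool.Agent.H24.HW
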