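import Pool.Agent.H39.HW.SBas

/-!
# Project HW, scheme side: part ROW
-/

set_option autoImplicit false
open Classical Finset

namespace Pool.Agent.H24.HW

open Pool.Agent.H39.HW Pool.Agent.H39.HW.Sc

/-- `gA` is a fraction -/
theorem gA_mem {x : Prm} (hx : Par x) {l : ℝ} (l0 : 0 ≤ l) (l1 : l ≤ 1) (a β : ℕ) :
    0 ≤ x.gA l a β ∧ x.gA l a β ≤ 1 := by
  have h1 := hx.cpos
  have h2 := hx.c_lt
  unfold Prm.gA
  split_ifs <;> constructor <;> linarith

/-- `gA` away from the adjacent blocks, in the middle -/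
theorem gA_far {x : Prm} (hx : Par x) {l : ℝ} {a β : ℕ} (hm : β ∈ x.mid) (ha : ¬ x.adj a β) :
    2 / 5 ≤ x.gA l a β ∧ x.gA l a β ≤ 3 / 5 := by
  have h1 := hx.cpos
  have h2 := hx.c_lt
  obtain ⟨m1, m2⟩ := Finset.mem_Ico.mp hm
  unfold Prm.gA
  rw [if_neg (by omega), if_neg (by omega), if_neg ha]
  split_ifs <;> constructor <;> linarith

/-- dependence of `gA` on the fraction -/
theorem gA_split (x : Prm) (l : ℝ) (a β : ℕ) :
    x.gA l a β = x.gA 0 a β +
      if β ∈ x.mid ∧ x.adj a β ∧ (x.b1 ≤ a + x.K ↔ β < a) then l else 0 := by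
  unfold Prm.gA Prm.mid
  by_cases h1 : β < x.b0
  · have : ¬ (β ∈ Finset.Ico x.b0 x.b1 ∧ x.adj a β ∧ (x.b1 ≤ a + x.K ↔ β < a)) := by
      rintro ⟨h, -⟩
      have := (Finset.mem_Ico.mp h).1
      omega
    rw [if_pos h1, if_pos h1, if_neg this]
    simp
  by_cases h2 : x.b1 ≤ β
  · have : ¬ (β ∈ Finset.Ico x.b0 x.b1 ∧ x.adj a β ∧ (x.b1 ≤ a + x.K ↔ β < a)) := by
      rintro ⟨h, -⟩
      have := (Finset.mem_Ico.mp h).2
      omega
    rw [if_neg h1, if_pos h2, if_neg h1, if_pos h2, if_neg this]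
    simp
  have hm : β ∈ Finset.Ico x.b0 x.b1 := Finset.mem_Ico.mpr (by omega)
  by_cases h3 : x.adj a β
  · by_cases h4 : (x.b1 ≤ a + x.K ↔ β < a)
    · rw [if_neg h1, if_neg h2, if_pos h3, if_pos h4, if_neg h1, if_neg h2, if_pos h3, if_pos h4,
        if_pos ⟨hm, h3, h4⟩]
      simp
    · rw [if_neg h1, if_neg h2, if_pos h3, if_neg h4, if_neg h1, if_neg h2, if_pos h3, if_neg h4,
        if_neg (fun h => h4 h.2.2)]
      simp
  · rw [if_neg (fun h : β ∈ Finset.Ico x.b0 x.b1 ∧ x.adj a β ∧ (x.b1 ≤ a + x.K ↔ β < a) =>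
      h3 h.2.1)]
    simp [h1, h2, h3]

theorem t_ROW (h1 : S_LM1) (h2 : S_CLD) (h3 : S_TOT) (h4 : S_BLK) (h5 : S_DJN) (h6 : S_MMD) :
    S_ROW := by
  intro x hx a ha τ
  obtain ⟨l0, l1, -⟩ := h1 x hx a ha
  obtain ⟨c1, c2, c3, c4, c5⟩ := h2 x hx a ha
  obtain ⟨d1, d2⟩ := hx.Dt_bounds h3 ha
  obtain ⟨b1, b2, b3, b4, b5, b6, b7, b8⟩ := h4 x hx
  obtain ⟨j1, j2, -⟩ := h5 x hx a ha
  obtain ⟨-, m2⟩ := h6 x hx
  have θ0 := hx.t0
  have m0 := hx.m0
  have η0 := hx.n0
  have η1 := hx.eta_le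
  have Dt0 : 0 < x.Dt a := by
    have : 0 < (1 - x.η) * x.θ := mul_pos (by linarith) θ0
    linarith
  have DJ0 : 0 < x.DJ a := by
    have h := hx.c1
    have h' := hx.n1
    have : 0 < (3 / 5 * x.c - 4 * x.η) * x.θ := by
      apply mul_pos _ θ0
      linarith
    linarith
  have dem0 : ∀ β ∈ x.cls a, 0 ≤ x.dem a β := by
    intro β hβ
    have := (c5 β hβ).1
    have h : 0 ≤ 3 / 10 * x.θ * x.μ := by positivity
    linarith
  have fr0 : ∀ τ β, 0 ≤ x.fr τ a β ∧ x.fr τ a β ≤ 1 := by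
    intro τ β
    have := gA_mem hx l0 l1 a β
    unfold Prm.fr
    split_ifs
    · exact this
    · constructor <;> linarith [this.1, this.2]
  have hfr : ∀ β, x.fr true a β + x.fr false a β = 1 := by
    intro β
    unfold Prm.fr
    simp
  have st_mono : ∀ {y z : ℕ}, y ≤ z → x.st y ≤ x.st z := fun h => monotone_nat_of_le_succ b3 h
  have hsum : ∑ β ∈ x.cls a, x.gA (x.lam a) a β * x.dem a β = x.Dt a / 2 := by
    have e1 : ∀ β ∈ x.cls a, x.gA (x.lam a) a β * x.dem a β = x.gA 0 a β * x.dem a β +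
        if β ∈ x.mid ∧ x.adj a β ∧ (x.b1 ≤ a + x.K ↔ β < a) then x.lam a * x.dem a β else 0 := by
      intro β _
      rw [gA_split x (x.lam a) a β, add_mul, ite_mul, zero_mul]
    rw [Finset.sum_congr rfl e1, Finset.sum_add_distrib, ← Finset.sum_filter, ← Finset.mul_sum]
    have e2 : ∑ β ∈ (x.cls a).filter (fun β => β ∈ x.mid ∧ x.adj a β ∧
        (x.b1 ≤ a + x.K ↔ β < a)), x.dem a β = x.DJ a := rfl
    rw [e2]
    unfold Prm.lam
    rw [div_mul_cancel₀ _ DJ0.ne']
    ring
  have hsum' : ∀ τ, ∑ β ∈ x.cls a, x.fr τ a β * x.dem a β = x.Dt a / 2 := by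
    intro τ
    cases τ
    · have e1 : ∀ β ∈ x.cls a, x.fr false a β * x.dem a β = x.dem a β -
          x.gA (x.lam a) a β * x.dem a β := by
        intro β _
        unfold Prm.fr
        simp
        ring
      rw [Finset.sum_congr rfl e1, Finset.sum_sub_distrib, hsum]
      have : ∑ β ∈ x.cls a, x.dem a β = x.Dt a := rfl
      rw [this]
      ring
    · have e1 : ∀ β ∈ x.cls a, x.fr true a β * x.dem a β =
          x.gA (x.lam a) a β * x.dem a β := by
        intro β _
        unfold Prm.fr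
        simp
      rw [Finset.sum_congr rfl e1, hsum]
  refine ⟨?_, ?_, ?_, ?_, ?_, ?_⟩
  · intro β
    unfold Prm.u
    split_ifs with h
    · exact div_nonneg (mul_nonneg (mul_nonneg (by norm_num) (fr0 τ β).1) (dem0 β h)) Dt0.le
    · exact le_refl _
  · intro β
    unfold Prm.u
    split_ifs with h
    · have e1 := (c5 β h).2
      have e2 := (fr0 τ β)
      have e3 := dem0 β h
      rw [div_le_div_iff₀ Dt0 θ0]
      have a1 : x.fr τ a β * x.dem a β ≤ 1 * (2 * x.μ) :=
        mul_le_mul e2.2 e1 e3 zero_le_one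
      have a2 : 2 * x.fr τ a β * x.dem a β ≤ 4 * x.μ := by linarith
      have a3 : 2 * x.fr τ a β * x.dem a β * x.θ ≤ 4 * x.μ * x.θ :=
        mul_le_mul_of_nonneg_right a2 θ0.le
      have a4 : 5 * x.μ * ((1 - x.η) * x.θ) ≤ 5 * x.μ * x.Dt a :=
        mul_le_mul_of_nonneg_left d1 (by positivity)
      have a5 : 4 * x.μ * x.θ ≤ 5 * x.μ * ((1 - x.η) * x.θ) := by
        have : 0 ≤ x.μ * x.θ := by positivity
        nlinarith
      linarith
    · positivity
  · have e1 : ∀ β ∈ range x.B, x.u τ a β =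
        if β ∈ x.cls a then 2 * x.fr τ a β * x.dem a β / x.Dt a else 0 := fun β _ => rfl
    rw [Finset.sum_congr rfl e1, ← Finset.sum_filter]
    have e2 : (range x.B).filter (fun β => β ∈ x.cls a) = x.cls a := by
      ext β
      rw [Finset.mem_filter, Finset.mem_range]
      exact ⟨fun h => h.2, fun h => ⟨((c1 β).mp h).1, h⟩⟩
    rw [e2]
    have e3 : ∀ β ∈ x.cls a, 2 * x.fr τ a β * x.dem a β / x.Dt a =
        2 / x.Dt a * (x.fr τ a β * x.dem a β) := by
      intro β _
      ring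
    rw [Finset.sum_congr rfl e3, ← Finset.mul_sum, hsum' τ]
    field_simp
  · intro β hu
    have hcl : β ∈ x.cls a := by
      by_contra h
      apply hu
      unfold Prm.u
      rw [if_neg h]
    have hf : x.fr τ a β ≠ 0 := by
      intro h
      apply hu
      unfold Prm.u
      rw [if_pos hcl, h]
      ring
    refine ⟨hcl, ?_⟩
    have hβB := ((c1 β).mp hcl).1
    have pK := hx.pK
    have N1 := hx.N1
    have eb0 : x.b0 = x.K + x.J := rfl
    have eb1 : x.b1 = x.K + x.J + x.M := rfl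
    have sb0 : x.st x.b0 = (x.K + x.J) * x.w := by
      unfold Prm.st
      rw [if_pos (le_refl _)]
      rfl
    have sb1 : x.st x.b1 = (x.K + x.J) * x.w + x.M * x.v := by
      unfold Prm.st
      by_cases hM : x.M = 0
      · have : x.b1 ≤ x.b0 := by omega
        have e : x.b1 = x.b0 := by omega
        rw [if_pos this, e, hM]
        simp [eb0]
      · rw [if_neg (by omega), if_pos (le_refl _)]
        have : x.b1 - x.b0 = x.M := by omega
        rw [this, eb0]
    have eξ : x.d0.ξ = x.J * x.w := rfl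
    have est : x.d0.st = x.st := rfl
    cases τ
    · -- false
      have hlt : β < x.b1 := by
        by_contra h
        push Not at h
        apply hf
        unfold Prm.fr Prm.gA
        have : ¬ β < x.b0 := by omega
        simp [this, h]
      unfold Dat.Al
      rw [if_neg (by simp), eξ, est]
      have e1 : x.st (β + 1) ≤ x.st x.b1 := st_mono (by omega)
      rw [sb1] at e1
      have e2 : 2 * (x.K + x.J) * x.w = (x.K + x.J) * x.w + x.K * x.w + x.J * x.w := by ring
      omega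
    · have hlt : x.b0 ≤ β := by
        by_contra h
        push Not at h
        apply hf
        unfold Prm.fr Prm.gA
        simp [h]
      unfold Dat.Al
      rw [if_pos rfl, eξ, est]
      have e1 : x.st x.b0 ≤ x.st β := st_mono hlt
      rw [sb0] at e1
      have e2 : (x.K + x.J) * x.w = x.K * x.w + x.J * x.w := by ring
      omega
  · intro β
    unfold Prm.u
    split_ifs with h
    · have := hfr β
      rw [← add_div]
      congr 1
      have e : 2 * x.fr true a β * x.dem a β + 2 * x.fr false a β * x.dem a β =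
        2 * (x.fr true a β + x.fr false a β) * x.dem a β := by ring
      rw [e, this]
      ring
    · simp
  · intro β hβ
    obtain ⟨hcl, hm, hmm, -⟩ := Finset.mem_filter.mp hβ
    have hna : ¬ x.adj a β := (((m2 a ha).1 β).mp hmm).2.1
    have hg := gA_far hx (l := x.lam a) hm hna
    have hf : 2 / 5 ≤ x.fr τ a β := by
      unfold Prm.fr
      split_ifs
      · exact hg.1
      · linarith [hg.2]
    unfold Prm.u
    rw [if_pos hcl]
    have e : 2 * x.fr τ a β * x.dem a β / x.Dt a = x.fr τ a β * (2 * x.dem a β / x.Dt a) := by ring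
    rw [e]
    apply mul_le_mul_of_nonneg_right hf
    exact div_nonneg (mul_nonneg (by norm_num) (dem0 β hcl)) Dt0.le

end Pool.Agent.H24.HW
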